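import Pool.Agent.Helper89.OC.St1

set_option autoImplicit false

namespace Pool.Agent.Helper10.OC

open Matrix ComplexConjugate Pool.Agent.Helper94.YF Pool.Agent.Helper94.YG Pool.Agent.Helper89.OS
  Pool.Agent.Helper89.OC

/-- an automorphism of a field `K` extends to an automorphism of an algebraically closed extension `ℂ` -/
private theorem ga2_ext_aut {K : Type} [Field K] [Algebra K ℂ] (t : K ≃+* K) :
    ∃ s : ℂ ≃+* ℂ, ∀ x, s (algebraMap K ℂ x) = algebraMap K ℂ (t x) := by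
  have hinj : Function.Injective (algebraMap K ℂ) := (algebraMap K ℂ).injective
  obtain ⟨w, hw⟩ := exists_isTranscendenceBasis K ℂ
  let _ := IsAlgClosed.isAlgClosure_of_transcendence_basis _ hw
  let e : Algebra.adjoin K (Set.range ((↑) : w → ℂ)) ≃+*
      Algebra.adjoin K (Set.range ((↑) : w → ℂ)) :=
    (hw.1.aevalEquiv.symm.toRingEquiv.trans (MvPolynomial.mapEquiv w t)).trans
      hw.1.aevalEquiv.toRingEquiv
  refine ⟨IsAlgClosure.equivOfEquiv ℂ ℂ e, fun x => ?_⟩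
  have h1 : algebraMap (Algebra.adjoin K (Set.range ((↑) : w → ℂ))) ℂ
      (algebraMap K _ x) = algebraMap K ℂ x := rfl
  have h2 : e (algebraMap K _ x) = algebraMap K _ (t x) := by
    change hw.1.aevalEquiv (MvPolynomial.mapEquiv w t (hw.1.aevalEquiv.symm
      (algebraMap K _ x))) = _
    rw [AlgEquiv.commutes, MvPolynomial.algebraMap_eq, MvPolynomial.mapEquiv_apply,
      MvPolynomial.map_C, ← MvPolynomial.algebraMap_eq, AlgEquiv.commutes]
    rfl
  rw [← h1, IsAlgClosure.equivOfEquiv_algebraMap, h2]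
  rfl

/-- automorphisms of `ℂ` act on roots of unity by arbitrary exponents prime to the order -/
private theorem ga2_cyc_aut' (L : ℕ) (hL : 0 < L) (c : (ZMod L)ˣ) (K : Type) [Field K] [Algebra ℚ K]
    [IsCyclotomicExtension {L} ℚ K] [Algebra K ℂ] :
    ∃ s : ℂ ≃+* ℂ, ∀ x : ℂ, x ^ L = 1 → s x = x ^ (c : ZMod L).val := by
  have : NeZero L := ⟨hL.ne'⟩
  have hz := IsCyclotomicExtension.zeta_spec L ℚ K
  have hzc : IsPrimitiveRoot (IsCyclotomicExtension.zeta L ℚ K ^ (c : ZMod L).val) L :=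
    hz.pow_of_coprime _ (ZMod.val_coe_unit_coprime c)
  obtain ⟨t, ht⟩ : ∃ t : K ≃ₐ[ℚ] K, t (IsCyclotomicExtension.zeta L ℚ K) =
      IsCyclotomicExtension.zeta L ℚ K ^ (c : ZMod L).val :=
    ⟨_, IsCyclotomicExtension.fromZetaAut_spec hzc (Polynomial.cyclotomic.irreducible_rat hL)⟩
  obtain ⟨s, hs⟩ := ga2_ext_aut (K := K) t.toRingEquiv
  refine ⟨s, fun x hx => ?_⟩
  have hzf : IsPrimitiveRoot (algebraMap K ℂ (IsCyclotomicExtension.zeta L ℚ K)) L :=
    hz.map_of_injective (algebraMap K ℂ).injective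
  obtain ⟨k, _, rfl⟩ := hzf.eq_pow_of_pow_eq_one hx
  have h3 := hs (IsCyclotomicExtension.zeta L ℚ K)
  have h4 : t.toRingEquiv (IsCyclotomicExtension.zeta L ℚ K) =
      IsCyclotomicExtension.zeta L ℚ K ^ (c : ZMod L).val := ht
  rw [map_pow, h3, h4, map_pow, ← pow_mul, ← pow_mul, mul_comm]

private theorem ga2_cyc_aut (L : ℕ) (hL : 0 < L) (c : (ZMod L)ˣ) :
    ∃ s : ℂ ≃+* ℂ, ∀ x : ℂ, x ^ L = 1 → s x = x ^ (c : ZMod L).val := by
  have : NeZero L := ⟨hL.ne'⟩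
  have : NeZero ((L : ℕ) : ℚ) := ⟨by exact_mod_cast hL.ne'⟩
  let f : CyclotomicField L ℚ →ₐ[ℚ] ℂ := IsAlgClosed.lift
  exact @ga2_cyc_aut' L hL c (CyclotomicField L ℚ) _ (CyclotomicField.algebra L ℚ)
    (CyclotomicField.isCyclotomicExtension L ℚ) f.toRingHom.toAlgebra

/-- reduction of exponents -/
private theorem ga2_mod {q : ℕ} (a : ℂ) (ha : a ^ q = 1) (n : ℕ) : a ^ n = a ^ (n % q) := by
  conv_lhs => rw [← Nat.div_add_mod n q]
  rw [pow_add, pow_mul, ha, one_pow, one_mul]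

/-- powers with exponents in `ZMod q`: product of exponents -/
private theorem ga2_pow_mul {q : ℕ} (a : ℂ) (ha : a ^ q = 1) (x y : ZMod q) :
    (a ^ x.val) ^ y.val = a ^ (x * y).val := by
  rw [← pow_mul, ZMod.val_mul, ← ga2_mod a ha]

/-- powers with exponents in `ZMod q`: sum of exponents -/
private theorem ga2_pow_add {q : ℕ} [NeZero q] (a : ℂ) (ha : a ^ q = 1) (x y : ZMod q) :
    a ^ x.val * a ^ y.val = a ^ (x + y).val := by
  rw [← pow_add, ZMod.val_add, ← ga2_mod a ha]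

/-- a nontrivial root of unity of prime order detects zero -/
private theorem ga2_zero {q : ℕ} [NeZero q] (hq : q.Prime) (a : ℂ) (ha : a ^ q = 1) (h1 : a ≠ 1)
    (x : ZMod q) (hx : a ^ x.val = 1) : x = 0 := by
  have h2 : orderOf a ∣ q := orderOf_dvd_of_pow_eq_one ha
  have h3 : orderOf a = q := by
    rcases (Nat.dvd_prime hq).1 h2 with h | h
    · exact absurd (orderOf_eq_one_iff.1 h) h1
    · exact h
  have h4 : q ∣ x.val := by
    have h5 : orderOf a ∣ x.val := orderOf_dvd_of_pow_eq_one hx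
    exact (dvd_of_eq h3.symm).trans h5
  have h5 : x.val = 0 := Nat.eq_zero_of_dvd_of_lt h4 (ZMod.val_lt x)
  exact (ZMod.val_eq_zero x).1 h5

/-- the Galois action -/
private theorem ga2_gal {I : Type} [Fintype I] [DecidableEq I] {p : ℕ} [NeZero p] (X : PD I p 1)
    (σ : ℂ ≃+* ℂ) (w : (ZMod (p ^ 1))ˣ)
    (hσ : ∀ ζ : ℂ, ζ ^ p = 1 → σ ζ = ζ ^ (w : ZMod (p ^ 1)).val) (i j : I) :
    σ (X.s i j) = X.s i (X.pi w j) := by
  have hp : p.Prime := X.prime
  have hq : (p ^ 1).Prime := by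
    rw [pow_one]
    exact hp
  have hne : NeZero (p ^ 1) := ⟨hq.ne_zero⟩
  have hp0 : (p : ℂ) ≠ 0 := by exact_mod_cast hp.ne_zero
  have htq : ∀ i, X.t i ^ (p ^ 1) = 1 := X.t_pow
  have htp : ∀ i, X.t i ^ p = 1 := fun i => by
    have := X.t_pow i
    rwa [pow_one] at this
  have ht0 : ∀ i, X.t i ≠ 0 := fun i h => by
    have := htq i
    rw [h, zero_pow hq.ne_zero] at this
    exact zero_ne_one this
  obtain ⟨c, hc⟩ := X.gal σ
  have hσt : ∀ (i : I) (x : ZMod (p ^ 1)),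
      σ (X.t i ^ x.val) = X.t i ^ ((w : ZMod (p ^ 1)) * x).val := by
    intro i x
    rw [map_pow, hσ _ (htp i)]
    exact ga2_pow_mul _ (htq i) _ _
  have main : ∀ i j, X.t i ^ ((c : ZMod (p ^ 1)) ^ 2 * -((w⁻¹ : (ZMod (p ^ 1))ˣ) : ZMod (p ^ 1))).val *
      X.t j ^ ((c : ZMod (p ^ 1)) ^ 2 * -((w⁻¹ : (ZMod (p ^ 1))ˣ) : ZMod (p ^ 1))).val *
        X.s i (X.pi (c * (w⁻¹ * c)) j) =
      X.t i ^ (-(w : ZMod (p ^ 1))).val * X.t j ^ (-(w : ZMod (p ^ 1))).val *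
        X.s i (X.pi c j) := by
    intro i j
    have h1 := congrArg σ (X.weil 1 i j)
    have hL : σ (∑ k, X.t k ^ ((1 : (ZMod (p ^ 1))ˣ) : ZMod (p ^ 1)).val * (X.s i k * X.s k j)) =
        ∑ k, X.t k ^ (w : ZMod (p ^ 1)).val * (X.s (X.pi c i) k * X.s k (X.pi c j)) := by
      rw [map_sum]
      refine Finset.sum_congr rfl fun k _ => ?_
      rw [map_mul, map_mul, hσt, hc, hc, X.pi_s, Units.val_one, mul_one]
    rw [hL, X.weil w (X.pi c i) (X.pi c j)] at h1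
    rw [map_mul, map_mul, map_mul, map_natCast, hσt, hσt, hc, X.pi_t, X.pi_t,
      ga2_pow_mul _ (htq i), ga2_pow_mul _ (htq j), X.pi_s, ← X.pi_mul, ← X.pi_mul, inv_one,
      X.pi_one, Units.val_one, mul_neg_one, mul_assoc, mul_assoc (p : ℂ)] at h1
    rw [← mul_assoc c w⁻¹ c]
    exact mul_left_cancel₀ hp0 h1
  -- comparison of the exponents
  have hcw : (c : ZMod (p ^ 1)) ^ 2 * -((w⁻¹ : (ZMod (p ^ 1))ˣ) : ZMod (p ^ 1)) =
      -(w : ZMod (p ^ 1)) := by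
    obtain ⟨k, hk1, hk2⟩ := X.ex
    have h1 := main k X.o
    rw [X.pi_o, X.pi_o, X.t_o, one_pow, one_pow, mul_one, mul_one, X.s_o] at h1
    have hy : (X.y k : ℂ) ≠ 0 := by exact_mod_cast hk1
    have h2 := mul_right_cancel₀ hy h1
    have hk3 : X.t k ≠ 1 := by
      intro h
      exact hk2 (by rw [h, one_pow])
    set u : ZMod (p ^ 1) := (c : ZMod (p ^ 1)) ^ 2 * -((w⁻¹ : (ZMod (p ^ 1))ˣ) : ZMod (p ^ 1))
      with hu
    have h3 : X.t k ^ (u + (w : ZMod (p ^ 1))).val = 1 := by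
      rw [← ga2_pow_add _ (htq k), h2, ga2_pow_add _ (htq k), neg_add_cancel, ZMod.val_zero,
        pow_zero]
    have h4 := ga2_zero hq _ (htq k) hk3 _ h3
    exact eq_neg_of_add_eq_zero_left h4
  have hcc : c * (w⁻¹ * c) = w := by
    apply Units.ext
    rw [Units.val_mul, Units.val_mul]
    have h1 : (c : ZMod (p ^ 1)) ^ 2 * ((w⁻¹ : (ZMod (p ^ 1))ˣ) : ZMod (p ^ 1)) =
        (w : ZMod (p ^ 1)) := by
      rw [mul_neg] at hcw
      exact neg_injective hcw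
    rw [← h1]
    ring
  have h := main i j
  rw [hcw, hcc] at h
  have hn : X.t i ^ (-(w : ZMod (p ^ 1))).val * X.t j ^ (-(w : ZMod (p ^ 1))).val ≠ 0 :=
    mul_ne_zero (pow_ne_zero _ (ht0 i)) (pow_ne_zero _ (ht0 j))
  rw [hc]
  exact (mul_left_cancel₀ hn h).symm

/-- OC module GA2 -/
theorem hGA2 : StGA2 := by
  intro I _ _ p _ X hst
  have hp : p.Prime := X.prime
  have hq : (p ^ 1).Prime := by
    rw [pow_one]
    exact hp
  have hp0 : (p : ℂ) ≠ 0 := by exact_mod_cast hp.ne_zero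
  have exs : ∀ w : (ZMod (p ^ 1))ˣ, ∃ σ : ℂ ≃+* ℂ, ∀ ζ : ℂ, ζ ^ p = 1 →
      σ ζ = ζ ^ (w : ZMod (p ^ 1)).val := by
    intro w
    obtain ⟨s, hs⟩ := ga2_cyc_aut (p ^ 1) hq.pos w
    exact ⟨s, fun ζ hζ => hs ζ (by rw [pow_one]; exact hζ)⟩
  refine ⟨fun σ w hσ i j => ga2_gal X σ w hσ i j, exs, ?_⟩
  intro c j
  obtain ⟨σ, hσ⟩ := exs c
  have h1 : ∀ i, X.s i (X.pi c (X.st j)) = X.s i (X.st (X.pi c j)) := by
    intro i
    have h2 : σ (X.s (X.st (X.st i)) (X.st j)) = σ (X.s (X.st i) j) := by rw [hst]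
    rw [ga2_gal X σ c hσ, ga2_gal X σ c hσ, X.st_st, ← hst (X.st i) (X.pi c j), X.st_st] at h2
    exact h2
  set a := X.pi c (X.st j) with ha
  set b := X.st (X.pi c j) with hb
  by_contra hab
  have h3 := X.s_uni a b
  rw [if_neg hab] at h3
  have h4 := X.s_uni a a
  rw [if_pos rfl] at h4
  have h5 : ∀ k, X.s b k = X.s a k := by
    intro k
    rw [X.s_symm b k, X.s_symm a k]
    exact (h1 k).symm
  simp only [h5] at h3
  rw [h4] at h3
  exact pow_ne_zero 2 hp0 h3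

end Pool.Agent.Helper10.OC
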